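import Pool.Agent.W70.MH.Ultra

/-!
Uniform algebraic solutions of polynomial systems with parameters.
-/

set_option autoImplicit false

namespace Pool.Agent.W70.MH

open Filter

theorem descent {La K : Type} [Field La] [Field K] [IsAlgClosed La] (j : La →+* K) {σ A : Type}
    [Finite σ] (P : A → MvPolynomial σ La) (x : σ → K)
    (hx : ∀ a, MvPolynomial.eval₂ j x (P a) = 0) :
    ∃ v : σ → La, ∀ a, MvPolynomial.eval v (P a) = 0 := by
  set J := Ideal.span (Set.range P) with hJdef
  have hJ : J ≠ ⊤ := by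
    intro h
    have h1 : (1 : MvPolynomial σ La) ∈ J := by rw [h]; trivial
    have h2 : J ≤ RingHom.ker (MvPolynomial.eval₂Hom j x) := by
      rw [hJdef, Ideal.span_le]
      rintro _ ⟨a, rfl⟩
      exact hx a
    have h3 := h2 h1
    rw [RingHom.mem_ker, map_one] at h3
    exact one_ne_zero h3
  obtain ⟨M, hM, hJM⟩ := Ideal.exists_le_maximal J hJ
  obtain ⟨v, hv⟩ := (MvPolynomial.isMaximal_iff_eq_vanishingIdeal_singleton (K := La)).1 hM
  refine ⟨v, fun a => ?_⟩
  have h4 : P a ∈ M := hJM (Ideal.subset_span ⟨a, rfl⟩)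
  rw [hv, MvPolynomial.mem_vanishingIdeal_singleton_iff] at h4
  have h5 := congrArg (fun g : MvPolynomial σ La →+* La => g (P a))
    (MvPolynomial.coe_aeval_eq_eval v)
  exact h5.symm.trans h4

open scoped IntermediateField.algebraAdjoinAdjoin in
theorem alg_descend {k E : Type} [Field k] [Field E] [Algebra k E] (S : Set E) (x : E)
    (h : IsAlgebraic (IntermediateField.adjoin k S) x) : IsAlgebraic (Algebra.adjoin k S) x :=
  (IsFractionRing.isAlgebraic_iff (Algebra.adjoin k S) (IntermediateField.adjoin k S) E).2 h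

theorem poly_toU {k : Type} [Field k] {R : Type} [CommRing R] (f : ℕ → R →+* k) (g : ℕ → k)
    (ρ : R →+* Ult k) (hρ : ∀ r, ρ r = toU (fun N => f N r)) (m : Polynomial R) :
    (m.map ρ).eval (toU g) = toU (fun N => (m.map (f N)).eval (g N)) := by
  rw [Polynomial.eval_map, Polynomial.eval₂_eq_sum_range]
  have h1 : (fun N => (m.map (f N)).eval (g N)) =
      ∑ i ∈ Finset.range (m.natDegree + 1), (fun N => f N (m.coeff i)) * g ^ i := by
    funext N
    rw [Polynomial.eval_map, Polynomial.eval₂_eq_sum_range]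
    simp
  rw [h1, map_sum]
  refine Finset.sum_congr rfl fun i _ => ?_
  rw [map_mul, map_pow, hρ]

variable {k : Type} [Field k] [IsAlgClosed k]

theorem core {σ τ A : Type} [Finite σ] [Finite A] (P : A → MvPolynomial (σ ⊕ τ) k)
    (y : ℕ → τ → k)
    (hsol : ∀ N, ∃ v : σ → k, ∀ a, MvPolynomial.eval (Sum.elim v (y N)) (P a) = 0) :
    ∃ (m : σ → Polynomial (MvPolynomial τ k)) (v : ℕ → σ → k),
      ∀ᶠ N in ((hyperfilter ℕ : Ultrafilter ℕ) : Filter ℕ),
        (∀ a, MvPolynomial.eval (Sum.elim (v N) (y N)) (P a) = 0) ∧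
        ∀ s, (m s).map (MvPolynomial.eval (y N)) ≠ 0 ∧
          ((m s).map (MvPolynomial.eval (y N))).eval (v N s) = 0 := by
  classical
  choose w hw using hsol
  set ys : τ → Ult k := fun t => toU (fun N => y N t) with hys
  let _ : Algebra k (Ult k) := (cU (k := k)).toAlgebra
  set L := IntermediateField.adjoin k (Set.range ys) with hL
  set La := algebraicClosure L (Ult k) with hLa
  have hclosed : IsAlgClosed La := IsAlgClosure.isAlgClosed L
  set ysL : τ → La := fun t => algebraMap L La
    ⟨ys t, IntermediateField.subset_adjoin k _ ⟨t, rfl⟩⟩ with hysL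
  set i0 : k →+* La := (algebraMap L La).comp (algebraMap k L) with hi0
  set j : La →+* Ult k := algebraMap La (Ult k) with hj
  have hj1 : ∀ t, j (ysL t) = ys t := fun t => rfl
  have hj2 : j.comp i0 = cU := by
    ext c
    rfl
  set Φ : MvPolynomial (σ ⊕ τ) k →+* MvPolynomial σ La :=
    MvPolynomial.eval₂Hom (MvPolynomial.C.comp i0)
      (Sum.elim MvPolynomial.X (fun t => MvPolynomial.C (ysL t))) with hΦ
  have hΦe : ∀ {K : Type} [Field K] (j' : La →+* K) (x : σ → K) (p : MvPolynomial (σ ⊕ τ) k),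
      MvPolynomial.eval₂ j' x (Φ p) =
        MvPolynomial.eval₂ (j'.comp i0) (Sum.elim x (fun t => j' (ysL t))) p := by
    intro K _ j' x p
    have h : (MvPolynomial.eval₂Hom j' x).comp Φ =
        MvPolynomial.eval₂Hom (j'.comp i0) (Sum.elim x (fun t => j' (ysL t))) := by
      apply MvPolynomial.ringHom_ext
      · intro c
        simp [hΦ]
      · rintro (s | t)
        · simp [hΦ]
        · simp [hΦ]
    exact congrArg (fun f : MvPolynomial (σ ⊕ τ) k →+* K => f p) h
  have hgen : ∀ (z : ℕ → σ → k) (p : MvPolynomial (σ ⊕ τ) k),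
      MvPolynomial.eval₂ j (fun s => toU (fun N => z N s)) (Φ p) =
        toU (fun N => MvPolynomial.eval (Sum.elim (z N) (y N)) p) := by
    intro z p
    rw [hΦe, hj2]
    have h1 := eval_toU (fun (i : σ ⊕ τ) N => Sum.elim (z N) (y N) i) p
    have h2 : (fun i : σ ⊕ τ => toU (fun N => Sum.elim (z N) (y N) i)) =
        Sum.elim (fun s => toU (fun N => z N s)) (fun t => j (ysL t)) := by
      funext i
      rcases i with s | t
      · rfl
      · rfl
    rw [h2] at h1
    exact h1
  obtain ⟨v', hv'⟩ := descent j (fun a => Φ (P a)) (fun s => toU (fun N => w N s)) (by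
    intro a
    rw [hgen]
    have : (fun N => MvPolynomial.eval (Sum.elim (w N) (y N)) (P a)) = 0 := by
      funext N
      exact hw N a
    rw [this, map_zero])
  choose g hg using fun s => toU_surj (j (v' s))
  set ρ : MvPolynomial τ k →+* Ult k := MvPolynomial.eval₂Hom cU ys with hρ
  have hρe : ∀ r, ρ r = toU (fun N => MvPolynomial.eval (y N) r) := by
    intro r
    exact eval_toU (fun t N => y N t) r
  have halg : ∀ s, ∃ m : Polynomial (MvPolynomial τ k), m.map ρ ≠ 0 ∧
      (m.map ρ).eval (j (v' s)) = 0 := by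
    intro s
    have h1 : IsAlgebraic L (j (v' s)) := (mem_algebraicClosure_iff).1 (v' s).2
    have h2 : IsAlgebraic (Algebra.adjoin k (Set.range ys)) (j (v' s)) :=
      alg_descend (Set.range ys) _ h1
    obtain ⟨p, hp0, hp⟩ := h2
    set p' := p.map (algebraMap (Algebra.adjoin k (Set.range ys)) (Ult k)) with hp'
    have hp'0 : p' ≠ 0 := by
      rw [hp', Polynomial.map_ne_zero_iff]
      · exact hp0
      · exact Subtype.val_injective
    have hlift : p' ∈ Polynomial.lifts ρ := by
      rw [Polynomial.lifts_iff_coeff_lifts]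
      intro n
      rw [hp', Polynomial.coeff_map]
      have h3 : ((p.coeff n : Algebra.adjoin k (Set.range ys)) : Ult k) ∈
          (MvPolynomial.aeval ys : MvPolynomial τ k →ₐ[k] Ult k).range := by
        rw [← Algebra.adjoin_range_eq_range_aeval]
        exact (p.coeff n).2
      obtain ⟨r, hr⟩ := h3
      exact ⟨r, hr⟩
    obtain ⟨m, hm⟩ := (Polynomial.mem_lifts _).1 hlift
    refine ⟨m, by rw [hm]; exact hp'0, ?_⟩
    rw [hm, hp', Polynomial.eval_map]
    exact hp
  choose m hm0 hm1 using halg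
  refine ⟨m, fun N s => g s N, ?_⟩
  have e1 : ∀ a, ∀ᶠ N in ((hyperfilter ℕ : Ultrafilter ℕ) : Filter ℕ),
      MvPolynomial.eval (Sum.elim (fun s => g s N) (y N)) (P a) = 0 := by
    intro a
    rw [← toU_eq_zero, ← hgen (fun N s => g s N)]
    have h1 : (fun s => toU (fun N => g s N)) = fun s => j (v' s) := by
      funext s
      exact hg s
    rw [h1]
    have h2 := congrArg j (hv' a)
    rw [map_zero] at h2
    rw [← h2]
    have h3 := MvPolynomial.eval₂_comp_left j (RingHom.id La) v' (Φ (P a))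
    rw [RingHom.comp_id] at h3
    exact h3.symm
  have e2 : ∀ s, ∀ᶠ N in ((hyperfilter ℕ : Ultrafilter ℕ) : Filter ℕ),
      (m s).map (MvPolynomial.eval (y N)) ≠ 0 := by
    intro s
    obtain ⟨i, hi⟩ : ∃ i, ((m s).map ρ).coeff i ≠ 0 := by
      by_contra hcon
      push Not at hcon
      exact hm0 s (Polynomial.ext (by simpa using hcon))
    rw [Polynomial.coeff_map, hρe, Ne, toU_eq_zero, ← Ultrafilter.eventually_not] at hi
    filter_upwards [hi] with N hN h0
    apply hN
    have := congrArg (fun q => Polynomial.coeff q i) h0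
    simpa [Polynomial.coeff_map] using this
  have e3 : ∀ s, ∀ᶠ N in ((hyperfilter ℕ : Ultrafilter ℕ) : Filter ℕ),
      ((m s).map (MvPolynomial.eval (y N))).eval (g s N) = 0 := by
    intro s
    rw [← toU_eq_zero, ← poly_toU (fun N => MvPolynomial.eval (y N)) (g s) ρ hρe, hg]
    exact hm1 s
  rw [← eventually_all] at e1 e2 e3
  filter_upwards [e1, e2, e3] with N h1 h2 h3
  exact ⟨h1, fun s => ⟨h2 s, h3 s⟩⟩

end Pool.Agent.W70.MH
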