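import Mathlib
import Pool.Agent.Helper259.HtDef

/-!
Definitions: quasi-projective varieties over the algebraic numbers, morphisms, heights, rational maps.
-/

set_option autoImplicit false

namespace Pool.Agent.W70.MH

open Pool.Agent.Helper259.AbsHt

/-- the algebraic numbers -/
abbrev Qb : Type := AlgebraicClosure ℚ

/-- the points over the algebraic numbers of the projective space with homogeneous coordinates
indexed by `ι` -/
abbrev P (ι : Type) : Type := Projectivization Qb (ι → Qb)

/-- the absolute logarithmic Weil height of a point of projective space -/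
noncomputable def height {ι : Type} [Finite ι] (p : P ι) : ℝ := absLogHeight p.rep

/-- Zariski closed sets: the common zeros of a set of homogeneous polynomials -/
def ZClosed {ι : Type} (Z : Set (P ι)) : Prop :=
  ∃ S : Set (MvPolynomial ι Qb), (∀ F ∈ S, ∃ d : ℕ, F.IsHomogeneous d) ∧
    Z = {p : P ι | ∀ F ∈ S, MvPolynomial.eval p.rep F = 0}

/-- quasi-projective varieties (not necessarily irreducible), embedded in a projective space:
the locally closed sets -/
def QuasiProj {ι : Type} (X : Set (P ι)) : Prop :=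
  ∃ Z W : Set (P ι), ZClosed Z ∧ ZClosed W ∧ X = Z \ W

/-- morphisms from a quasi-projective variety to a projective space: near every point the map is
given by homogeneous polynomials of the same degree without common zeros -/
def IsMorphism {ι κ : Type} (X : Set (P ι)) (f : X → P κ) : Prop :=
  ∀ x : X, ∃ (W : Set (P ι)) (d : ℕ) (F : κ → MvPolynomial ι Qb),
    ZClosed W ∧ (x : P ι) ∉ W ∧ (∀ j, (F j).IsHomogeneous d) ∧
    ∀ x' : X, (x' : P ι) ∉ W →
      ∃ h : (fun j => MvPolynomial.eval (x' : P ι).rep (F j)) ≠ 0, f x' = Projectivization.mk Qb _ h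

/-- `A ≍ B`: there are constants `c₁, c₂ > 0` and `c₃, c₄` with `c₁ A - c₃ ≤ B ≤ c₂ A + c₄` -/
def Comparable {S : Type} (A B : S → ℝ) : Prop :=
  ∃ c₁ c₂ c₃ c₄ : ℝ, 0 < c₁ ∧ 0 < c₂ ∧ ∀ x, c₁ * A x - c₃ ≤ B x ∧ B x ≤ c₂ * A x + c₄

/-- the value at `(X, Y)` of the pair of binary forms `∑ a_i X^i Y^(d-i)`, `∑ b_i X^i Y^(d-i)`
whose coefficient vector is `c = (a, b)` -/
noncomputable def ev {d : ℕ} (c : Fin 2 × Fin (d + 1) → Qb) (v : Fin 2 → Qb) : Fin 2 → Qb :=
  fun j => ∑ i : Fin (d + 1), c (j, i) * v 0 ^ (i : ℕ) * v 1 ^ (d - (i : ℕ))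

/-- the dehomogenised polynomials `∑ a_i X^i` and `∑ b_i X^i` -/
noncomputable def dehom {d : ℕ} (c : Fin 2 × Fin (d + 1) → Qb) (j : Fin 2) : Polynomial Qb :=
  ∑ i : Fin (d + 1), Polynomial.C (c (j, i)) * Polynomial.X ^ (i : ℕ)

/-- the rational maps of degree `d`, as points of the projective space of dimension `2 d + 1`:
the resultant of the two forms of degree `d` does not vanish -/
def Rat (d : ℕ) : Set (P (Fin 2 × Fin (d + 1))) :=
  {f | Polynomial.resultant (dehom f.rep 0) (dehom f.rep 1) d d ≠ 0}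

/-- `f'` is a conjugate `φ⁻¹ ∘ f ∘ φ` of `f`, `φ` in the group of invertible matrices (it acts
through its quotient by the scalar matrices) -/
def Conj {d : ℕ} (f f' : Rat d) : Prop :=
  ∃ (φ : GL (Fin 2) Qb) (c : Qb), c ≠ 0 ∧ ∀ v : Fin 2 → Qb,
    ev (f' : P (Fin 2 × Fin (d + 1))).rep v = c • ((φ⁻¹ : GL (Fin 2) Qb) : Matrix (Fin 2) (Fin 2) Qb).mulVec
      (ev (f : P (Fin 2 × Fin (d + 1))).rep ((φ : Matrix (Fin 2) (Fin 2) Qb).mulVec v))

end Pool.Agent.W70.MH
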