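import Pool.Agent.W70.MH.Lower

/-!
Comparison of the height on a quotient with the minimal height in the orbit.
-/

set_option autoImplicit false

namespace Pool.Agent.W70.MH

open Pool.Agent.Helper259.AbsHt

theorem comparable {ι κ : Type} [Finite ι] [Finite κ] (X : Set (P ι)) (hX : QuasiProj X)
    (f : X → P κ) (hf : IsMorphism X f) (I : X → Type) (hI : ∀ x, Nonempty (I x))
    (pt : ∀ x, I x → X) (h1 : ∀ x i, f (pt x i) = f x) (h2 : ∀ x x', f x' = f x → ∃ i, pt x i = x') :
    Comparable (fun x : X => height (f x)) (fun x : X => ⨅ i : I x, height (pt x i : P ι)) := by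
  obtain ⟨C₁, hC₁, hu⟩ := upper X f hf
  obtain ⟨C₂, hC₂, hl⟩ := lower X hX f hf
  refine ⟨1 / C₁, C₂, 1, C₂, by positivity, hC₂, fun x => ⟨?_, ?_⟩⟩
  · have := hI x
    apply le_ciInf
    intro i
    have h3 := hu (pt x i)
    rw [h1] at h3
    have h4 : 1 / C₁ * height (f x) ≤ 1 / C₁ * (C₁ * height (pt x i : P ι) + C₁) :=
      mul_le_mul_of_nonneg_left h3 (by positivity)
    have h5 : 1 / C₁ * (C₁ * height (pt x i : P ι) + C₁) = height (pt x i : P ι) + 1 := by
      field_simp
    change 1 / C₁ * height (f x) - 1 ≤ _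
    linarith
  · obtain ⟨x', hx', hh⟩ := hl x
    obtain ⟨i, hi⟩ := h2 x x' hx'
    have h3 : BddBelow (Set.range fun i : I x => height (pt x i : P ι)) :=
      ⟨0, by rintro _ ⟨i, rfl⟩; exact height_nonneg _⟩
    refine (ciInf_le h3 i).trans ?_
    change height (pt x i : P ι) ≤ C₂ * height (f x) + C₂
    rw [hi]
    exact hh

/-- the generic polynomial -/
noncomputable def gen (d : ℕ) (j : Fin 2) : Polynomial (MvPolynomial (Fin 2 × Fin (d + 1)) Qb) :=
  ∑ i : Fin (d + 1), Polynomial.C (MvPolynomial.X (j, i)) * Polynomial.X ^ (i : ℕ)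

theorem gen_map {d : ℕ} (j : Fin 2) (c : Fin 2 × Fin (d + 1) → Qb) :
    (gen d j).map (MvPolynomial.eval c) = dehom c j := by
  unfold gen dehom
  simp [Polynomial.map_sum]

theorem gen_coeff {d : ℕ} (j : Fin 2) (n : ℕ) : ((gen d j).coeff n).IsHomogeneous 1 := by
  unfold gen
  rw [Polynomial.finsetSum_coeff]
  apply MvPolynomial.IsHomogeneous.sum
  intro i _
  rw [Polynomial.coeff_C_mul_X_pow]
  split_ifs
  · exact MvPolynomial.isHomogeneous_X _ _
  · exact MvPolynomial.isHomogeneous_zero _ _ _

theorem quasiProj_rat (d : ℕ) : QuasiProj (Rat d) := by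
  refine ⟨Set.univ, {f | MvPolynomial.eval f.rep (Polynomial.resultant (gen d 0) (gen d 1) d d) = 0},
    ⟨∅, fun F hF => absurd hF (Set.notMem_empty _), ?_⟩,
    ⟨{Polynomial.resultant (gen d 0) (gen d 1) d d}, ?_, ?_⟩, ?_⟩
  · ext p
    simp
  · intro F hF
    rw [Set.mem_singleton_iff] at hF
    subst hF
    refine ⟨0 + (d + d), ?_⟩
    unfold Polynomial.resultant
    rw [Matrix.det_apply']
    apply MvPolynomial.IsHomogeneous.sum
    intro σ _
    apply MvPolynomial.IsHomogeneous.mul
    · have h1 : ((Equiv.Perm.sign σ : ℤ) : MvPolynomial (Fin 2 × Fin (d + 1)) Qb) =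
          MvPolynomial.C ((Equiv.Perm.sign σ : ℤ) : Qb) := by
        simp
      rw [h1]
      exact MvPolynomial.isHomogeneous_C _ _
    · have h2 := MvPolynomial.IsHomogeneous.prod (Finset.univ : Finset (Fin (d + d)))
        (fun i => Polynomial.sylvester (gen d 0) (gen d 1) d d (σ i) i) (fun _ => 1) (by
          intro i _
          unfold Polynomial.sylvester
          rw [Matrix.of_apply]
          induction i using Fin.addCases with
          | left i =>
            rw [Fin.addCases_left]
            split_ifs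
            · exact gen_coeff _ _
            · exact MvPolynomial.isHomogeneous_zero _ _ _
          | right i =>
            rw [Fin.addCases_right]
            split_ifs
            · exact gen_coeff _ _
            · exact MvPolynomial.isHomogeneous_zero _ _ _)
      simpa using h2
  · ext p
    simp
  · ext p
    simp only [Set.mem_sdiff, Set.mem_univ, true_and, Set.mem_ofPred_eq, Rat]
    rw [← Polynomial.resultant_map_map, gen_map, gen_map]

end Pool.Agent.W70.MH
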