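import Pool.Agent.W70.MH.Main

/-!
Every fibre of a morphism contains a point of height bounded by the height of the image.
-/

set_option autoImplicit false

namespace Pool.Agent.W70.MH

open Pool.Agent.Helper259.AbsHt

/-- the system of equations -/
noncomputable def sys {ι κ : Type} (TZ : Finset (MvPolynomial ι Qb)) (F : κ → MvPolynomial ι Qb)
    (b : MvPolynomial ι Qb) (l : ι) :
    (TZ ⊕ ((κ × κ) ⊕ Unit)) → MvPolynomial (Option ι ⊕ κ) Qb
  | Sum.inl G => MvPolynomial.rename (fun i => Sum.inl (some i)) (G : MvPolynomial ι Qb)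
  | Sum.inr (Sum.inl a) => MvPolynomial.rename (fun i => Sum.inl (some i)) (F a.1) *
      MvPolynomial.X (Sum.inr a.2) - MvPolynomial.rename (fun i => Sum.inl (some i)) (F a.2) *
      MvPolynomial.X (Sum.inr a.1)
  | Sum.inr (Sum.inr _) => MvPolynomial.X (Sum.inl none) * MvPolynomial.X (Sum.inl (some l)) *
      MvPolynomial.rename (fun i => Sum.inl (some i)) b - 1

theorem sys_iff {ι κ : Type} (TZ : Finset (MvPolynomial ι Qb)) (F : κ → MvPolynomial ι Qb)
    (b : MvPolynomial ι Qb) (l : ι) (u : Option ι → Qb) (y : κ → Qb) :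
    (∀ a, MvPolynomial.eval (Sum.elim u y) (sys TZ F b l a) = 0) ↔
      (∀ G ∈ TZ, MvPolynomial.eval (fun i => u (some i)) G = 0) ∧
      (∀ j₁ j₂, MvPolynomial.eval (fun i => u (some i)) (F j₁) * y j₂ =
        MvPolynomial.eval (fun i => u (some i)) (F j₂) * y j₁) ∧
      u none * u (some l) * MvPolynomial.eval (fun i => u (some i)) b = 1 := by
  have e : ∀ G : MvPolynomial ι Qb, MvPolynomial.eval (Sum.elim u y)
      (MvPolynomial.rename (fun i => Sum.inl (some i)) G) =
      MvPolynomial.eval (fun i => u (some i)) G := by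
    intro G
    rw [MvPolynomial.eval_rename]
    rfl
  constructor
  · intro h
    refine ⟨fun G hG => ?_, fun j₁ j₂ => ?_, ?_⟩
    · have := h (Sum.inl ⟨G, hG⟩)
      rw [sys, e] at this
      exact this
    · have := h (Sum.inr (Sum.inl (j₁, j₂)))
      rw [sys, map_sub, map_mul, map_mul, e, e, MvPolynomial.eval_X, MvPolynomial.eval_X] at this
      exact sub_eq_zero.1 this
    · have := h (Sum.inr (Sum.inr ()))
      rw [sys, map_sub, map_mul, map_mul, e, MvPolynomial.eval_X, MvPolynomial.eval_X,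
        map_one] at this
      exact sub_eq_zero.1 this
  · rintro ⟨h1, h2, h3⟩ a
    rcases a with G | (j | _)
    · rw [sys, e]
      exact h1 G G.2
    · rw [sys, map_sub, map_mul, map_mul, e, e, MvPolynomial.eval_X, MvPolynomial.eval_X]
      exact sub_eq_zero.2 (h2 j.1 j.2)
    · rw [sys, map_sub, map_mul, map_mul, e, MvPolynomial.eval_X, MvPolynomial.eval_X, map_one]
      exact sub_eq_zero.2 h3

theorem lower {ι κ : Type} [Finite ι] [Finite κ] (X : Set (P ι)) (hX : QuasiProj X) (f : X → P κ)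
    (hf : IsMorphism X f) : ∃ C : ℝ, 0 < C ∧ ∀ x : X, ∃ x' : X, f x' = f x ∧
      height (x' : P ι) ≤ C * height (f x) + C := by
  classical
  cases nonempty_fintype ι
  cases nonempty_fintype κ
  obtain ⟨Z, W, ⟨SZ, hSZ, hZ⟩, ⟨SW, hSW, hW⟩, hXe⟩ := hX
  obtain ⟨TZ, hTZ, hTZv⟩ := pick SZ
  obtain ⟨TW, hTW, hTWv⟩ := pick SW
  obtain ⟨R, hR, g, D, E, F, hg, hF, hcov, hrep⟩ := finite_reps X f hf
  cases nonempty_fintype R
  have h1 : ∀ a : ι × TW × R, ∃ C : ℝ, 0 ≤ C ∧ ∀ y : κ → Qb,
      (∃ v : Option ι → Qb, ∀ e, MvPolynomial.eval (Sum.elim v y)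
        (sys TZ (F a.2.2) ((a.2.1 : MvPolynomial ι Qb) * g a.2.2) a.1 e) = 0) →
      ∃ v : Option ι → Qb, (∀ e, MvPolynomial.eval (Sum.elim v y)
        (sys TZ (F a.2.2) ((a.2.1 : MvPolynomial ι Qb) * g a.2.2) a.1 e) = 0) ∧
        absLogHeight (aff v) ≤ C * absLogHeight (aff y) + C :=
    fun a => small_solutions _
  choose C hC0 hC using h1
  refine ⟨∑ a, C a + 1, by have := Finset.sum_nonneg (fun a (_ : a ∈ Finset.univ) => hC0 a); linarith,
    fun x => ?_⟩
  -- the data of the point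
  have hxX : (x : P ι) ∈ Z \ W := hXe ▸ x.2
  have hxZ : ∀ G ∈ SZ, MvPolynomial.eval (x : P ι).rep G = 0 := by
    have := hxX.1
    rw [hZ] at this
    exact this
  obtain ⟨b, hbT, hb⟩ : ∃ b ∈ TW, MvPolynomial.eval (x : P ι).rep b ≠ 0 := by
    by_contra hcon
    push Not at hcon
    apply hxX.2
    rw [hW]
    exact hTWv _ hcon
  obtain ⟨l, hl⟩ : ∃ l, (x : P ι).rep l ≠ 0 := Function.ne_iff.1 (x : P ι).rep_nonzero
  obtain ⟨r, hr⟩ := hcov x
  obtain ⟨j, hj⟩ : ∃ j, (f x).rep j ≠ 0 := Function.ne_iff.1 (f x).rep_nonzero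
  obtain ⟨hne, hfx⟩ := hrep x r hr
  set y : κ → Qb := ((f x).rep j)⁻¹ • (f x).rep with hy
  have hyj : y j = 1 := by
    rw [hy, Pi.smul_apply, smul_eq_mul, inv_mul_cancel₀ hj]
  have hyh : absLogHeight (aff y) ≤ height (f x) := by
    have h2 : aff y = y ∘ (fun o : Option κ => o.elim j id) := by
      funext o
      cases o with
      | none => exact hyj.symm
      | some i => rfl
    rw [h2]
    refine (absLogHeight_comp_le _ _).trans (le_of_eq ?_)
    rw [hy, absLogHeight_smul _ (inv_ne_zero hj)]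
    rfl
  obtain ⟨a, ha⟩ : ∃ a : Qbˣ, a • (fun j => MvPolynomial.eval (x : P ι).rep (F r j)) =
      (f x).rep := by
    rw [hfx]
    exact Projectivization.exists_smul_eq_mk_rep Qb _ hne
  obtain ⟨u, hu, huh⟩ := hC (l, ⟨b, hbT⟩, r) y (by
    refine ⟨fun o => o.elim ((x : P ι).rep l * MvPolynomial.eval (x : P ι).rep (b * g r))⁻¹
      (x : P ι).rep, ?_⟩
    rw [sys_iff]
    refine ⟨fun G hG => hxZ G (hTZ hG), fun j₁ j₂ => ?_, ?_⟩
    · change MvPolynomial.eval (x : P ι).rep (F r j₁) * y j₂ =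
        MvPolynomial.eval (x : P ι).rep (F r j₂) * y j₁
      rw [hy, ← ha]
      simp only [Pi.smul_apply, smul_eq_mul, Units.smul_def]
      ring
    · change ((x : P ι).rep l * MvPolynomial.eval (x : P ι).rep (b * g r))⁻¹ * (x : P ι).rep l *
        MvPolynomial.eval (x : P ι).rep (b * g r) = 1
      rw [mul_assoc]
      apply inv_mul_cancel₀
      rw [map_mul]
      exact mul_ne_zero hl (mul_ne_zero hb hr))
  rw [sys_iff] at hu
  obtain ⟨hu1, hu2, hu3⟩ := hu
  set v : ι → Qb := fun i => u (some i) with hv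
  have hvl : v l ≠ 0 := by
    intro h0
    have : u (some l) = 0 := h0
    rw [this, mul_zero, zero_mul] at hu3
    exact zero_ne_one hu3
  have hv0 : v ≠ 0 := by
    intro h0
    apply hvl
    rw [h0]
    rfl
  have hbg : MvPolynomial.eval v b ≠ 0 ∧ MvPolynomial.eval v (g r) ≠ 0 := by
    rw [map_mul] at hu3
    constructor
    · intro h0
      rw [h0, zero_mul, mul_zero] at hu3
      exact zero_ne_one hu3
    · intro h0
      rw [h0, mul_zero, mul_zero] at hu3
      exact zero_ne_one hu3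
  set p : P ι := Projectivization.mk Qb v hv0 with hp
  have hpX : p ∈ X := by
    rw [hXe]
    constructor
    · rw [hZ]
      apply hTZv
      intro G hG
      obtain ⟨d, hd⟩ := hSZ G (hTZ hG)
      rw [hp, eval_rep hd]
      exact hu1 G hG
    · rw [hW]
      intro hcon
      obtain ⟨d, hd⟩ := hSW b (hTW hbT)
      have := hcon b (hTW hbT)
      rw [hp, eval_rep hd] at this
      exact hbg.1 this
  have hpg : MvPolynomial.eval p.rep (g r) ≠ 0 := by
    rw [hp, Ne, eval_rep (hg r)]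
    exact hbg.2
  obtain ⟨hne', hfp⟩ := hrep ⟨p, hpX⟩ r hpg
  refine ⟨⟨p, hpX⟩, ?_, ?_⟩
  · rw [hfp]
    conv_rhs => rw [← (f x).mk_rep]
    rw [Projectivization.mk_eq_mk_iff']
    obtain ⟨c, hc⟩ := Projectivization.exists_smul_eq_mk_rep Qb v hv0
    refine ⟨(c : Qb) ^ D r * (MvPolynomial.eval v (F r j) * ((f x).rep j)⁻¹), ?_⟩
    funext i
    have h3 := hu2 i j
    rw [hyj, mul_one] at h3
    change _ = MvPolynomial.eval p.rep (F r i)
    rw [hp, ← hc, Units.smul_def, eval_smul (hF r i), h3, hy]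
    simp only [Pi.smul_apply, smul_eq_mul]
    ring
  · change height p ≤ _
    rw [hp, height_mk]
    have h4 : v = aff u ∘ (fun i => some (some i)) := rfl
    have h5 : absLogHeight v ≤ absLogHeight (aff u) := by
      rw [h4]
      exact absLogHeight_comp_le _ _
    have h6 : C (l, ⟨b, hbT⟩, r) ≤ ∑ a, C a :=
      Finset.single_le_sum (f := C) (fun a _ => hC0 a) (Finset.mem_univ _)
    have h7 := height_nonneg (f x)
    have h8 := absLogHeight_nonneg (aff y)
    have h9 : C (l, ⟨b, hbT⟩, r) * absLogHeight (aff y) ≤ (∑ a, C a + 1) * height (f x) :=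
      mul_le_mul (by linarith) hyh h8 (by have := hC0 (l, ⟨b, hbT⟩, r); linarith)
    linarith

end Pool.Agent.W70.MH
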