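import Pool.Agent.W70.MH.Core
import Pool.Agent.Helper259.AbsHt

/-!
Solutions of small height of polynomial systems with parameters.
-/

set_option autoImplicit false

namespace Pool.Agent.W70.MH

open Filter Pool.Agent.Helper259.AbsHt Pool.Agent.Helper259.HtPoly

/-- affine coordinates as homogeneous coordinates -/
noncomputable def aff {τ : Type} (y : τ → Qbar) : Option τ → Qbar := fun o => o.elim 1 y

theorem hom_eval {τ ι' : Type} [Fintype τ] [Finite ι'] (p : ι' → MvPolynomial τ Qbar) :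
    ∃ (D : ℕ) (C : ℝ), ∀ y : τ → Qbar,
      absLogHeight (fun j => MvPolynomial.eval y (p j)) ≤ C + D * absLogHeight (aff y) := by
  classical
  cases nonempty_fintype ι'
  set D : ℕ := Finset.univ.sup (fun j => (p j).totalDegree) with hD
  set q : ι' → MvPolynomial (Option τ) Qbar := fun j => ∑ n ∈ Finset.range (D + 1),
    MvPolynomial.X none ^ (D - n) *
      MvPolynomial.rename some (MvPolynomial.homogeneousComponent n (p j)) with hq
  have hhom : ∀ j, (q j).IsHomogeneous D := by
    intro j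
    apply MvPolynomial.IsHomogeneous.sum
    intro n hn
    have hn' : n ≤ D := Nat.lt_succ_iff.1 (Finset.mem_range.1 hn)
    have h1 := (MvPolynomial.isHomogeneous_X_pow (R := Qbar) (none : Option τ) (D - n)).mul
      ((MvPolynomial.homogeneousComponent_isHomogeneous n (p j)).rename_isHomogeneous (f := some))
    rwa [Nat.sub_add_cancel hn'] at h1
  have heval : ∀ (y : τ → Qbar) j, MvPolynomial.eval (aff y) (q j) = MvPolynomial.eval y (p j) := by
    intro y j
    rw [hq]
    simp only [map_sum, map_mul, map_pow, MvPolynomial.eval_X, MvPolynomial.eval_rename]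
    have h1 : aff y ∘ some = y := rfl
    have h2 : aff y none = 1 := rfl
    simp only [h1, h2, one_pow, one_mul]
    rw [← map_sum]
    congr 1
    have hle : (p j).totalDegree ≤ D := Finset.le_sup (f := fun j => (p j).totalDegree)
      (Finset.mem_univ j)
    conv_rhs => rw [← MvPolynomial.sum_homogeneousComponent (p j)]
    symm
    apply Finset.sum_subset
    · intro n hn
      rw [Finset.mem_range] at hn ⊢
      omega
    · intro n _ hn
      apply MvPolynomial.homogeneousComponent_eq_zero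
      rw [Finset.mem_range] at hn
      omega
  obtain ⟨C, hC⟩ := absLogHeight_eval D q hhom
  refine ⟨D, C, fun y => ?_⟩
  have h := hC (aff y)
  simp only [heval] at h
  exact h

theorem root_bound {τ : Type} [Fintype τ] (m : Polynomial (MvPolynomial τ Qbar)) :
    ∃ C : ℝ, 0 ≤ C ∧ ∀ (y : τ → Qbar) (v : Qbar), m.map (MvPolynomial.eval y) ≠ 0 →
      (m.map (MvPolynomial.eval y)).eval v = 0 →
      absLogHeight ![1, v] ≤ C * absLogHeight (aff y) + C := by
  obtain ⟨C₁, h₁⟩ := absLogHeight_root m.natDegree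
  obtain ⟨D, C₂, h₂⟩ := hom_eval (fun j : Fin (m.natDegree + 1) => m.coeff j)
  refine ⟨max (D : ℝ) (C₁ + C₂), le_max_of_le_left (Nat.cast_nonneg _), fun y v h0 hv => ?_⟩
  have h3 := h₁ _ v h0 Polynomial.natDegree_map_le hv
  have h4 := h₂ y
  have e : cv m.natDegree (m.map (MvPolynomial.eval y)) =
      fun j : Fin (m.natDegree + 1) => MvPolynomial.eval y (m.coeff j) := by
    funext j
    simp [cv, Polynomial.coeff_map]
  rw [e] at h3
  have h5 := absLogHeight_nonneg (aff y)
  have h6 : (D : ℝ) * absLogHeight (aff y) ≤ max (D : ℝ) (C₁ + C₂) * absLogHeight (aff y) :=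
    mul_le_mul_of_nonneg_right (le_max_left _ _) h5
  have h7 : C₁ + C₂ ≤ max (D : ℝ) (C₁ + C₂) := le_max_right _ _
  linarith

theorem aff_le {σ : Type} [Fintype σ] (v : σ → Qbar) :
    absLogHeight (aff v) ≤ absLogHeight ![(1 : Qbar), 1] + ∑ s, absLogHeight ![1, v s] := by
  have h := absLogHeight_le_sum (aff v)
  rw [Fintype.sum_option] at h
  exact h

theorem small_solutions {σ τ A : Type} [Fintype σ] [Fintype τ] [Finite A]
    (P : A → MvPolynomial (σ ⊕ τ) Qbar) : ∃ C : ℝ, 0 ≤ C ∧ ∀ y : τ → Qbar,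
      (∃ v : σ → Qbar, ∀ a, MvPolynomial.eval (Sum.elim v y) (P a) = 0) →
      ∃ v : σ → Qbar, (∀ a, MvPolynomial.eval (Sum.elim v y) (P a) = 0) ∧
        absLogHeight (aff v) ≤ C * absLogHeight (aff y) + C := by
  by_contra hcon
  push Not at hcon
  have h1 : ∀ N : ℕ, ∃ y : τ → Qbar,
      (∃ v : σ → Qbar, ∀ a, MvPolynomial.eval (Sum.elim v y) (P a) = 0) ∧
      ∀ v : σ → Qbar, (∀ a, MvPolynomial.eval (Sum.elim v y) (P a) = 0) →
        (N : ℝ) * absLogHeight (aff y) + N < absLogHeight (aff v) :=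
    fun N => hcon N (Nat.cast_nonneg N)
  choose y hy1 hy2 using h1
  obtain ⟨m, v, hmv⟩ := core P y hy1
  choose C hC0 hC using fun s => root_bound (m s)
  set B : ℝ := absLogHeight ![(1 : Qbar), 1] + ∑ s, C s with hB
  have hev : ∀ᶠ N in ((hyperfilter ℕ : Ultrafilter ℕ) : Filter ℕ), ⌈B⌉₊ ≤ N := by
    have h2 : ∀ᶠ N in atTop, ⌈B⌉₊ ≤ N := eventually_ge_atTop _
    exact Nat.hyperfilter_le_atTop h2
  obtain ⟨N, ⟨hN1, hN2⟩, hN3⟩ := (hmv.and hev).exists
  have h3 := hy2 N (v N) hN1
  have h4 := aff_le (v N)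
  have h5 : ∑ s, absLogHeight ![1, v N s] ≤ ∑ s, (C s * absLogHeight (aff (y N)) + C s) :=
    Finset.sum_le_sum fun s _ => hC s (y N) (v N s) (hN2 s).1 (hN2 s).2
  rw [Finset.sum_add_distrib, ← Finset.sum_mul] at h5
  have h6 := absLogHeight_nonneg (aff (y N))
  have h7 := absLogHeight_nonneg ![(1 : Qbar), 1]
  have h8 : B ≤ N := (Nat.le_ceil B).trans (by exact_mod_cast hN3)
  have h9 : (∑ s, C s) * absLogHeight (aff (y N)) ≤ N * absLogHeight (aff (y N)) :=
    mul_le_mul_of_nonneg_right (by linarith) h6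
  linarith

end Pool.Agent.W70.MH
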