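import Pool.Agent.W70.MH.Defs
import Pool.Agent.W70.MH.Small

/-!
Heights of images of morphisms and heights of points of the fibres.
-/

set_option autoImplicit false

namespace Pool.Agent.W70.MH

open Pool.Agent.Helper259.AbsHt

theorem pick {ι : Type} [Finite ι] (G : Set (MvPolynomial ι Qb)) :
    ∃ T : Finset (MvPolynomial ι Qb), (T : Set (MvPolynomial ι Qb)) ⊆ G ∧
      ∀ v : ι → Qb, (∀ F ∈ T, MvPolynomial.eval v F = 0) → ∀ F ∈ G, MvPolynomial.eval v F = 0 := by
  obtain ⟨T, hT, hs⟩ := (Submodule.fg_span_iff_fg_span_finset_subset G).1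
    (IsNoetherian.noetherian (Submodule.span (MvPolynomial ι Qb) G))
  refine ⟨T, hT, fun v hv F hF => ?_⟩
  have h1 : F ∈ Submodule.span (MvPolynomial ι Qb) G := Submodule.subset_span hF
  rw [hs] at h1
  have h2 : Ideal.span (T : Set (MvPolynomial ι Qb)) ≤ RingHom.ker (MvPolynomial.eval v) := by
    rw [Ideal.span_le]
    intro F hF
    exact hv F hF
  exact h2 h1

theorem eval_smul {ι : Type} [Finite ι] {F : MvPolynomial ι Qb} {d : ℕ} (hF : F.IsHomogeneous d)
    (a : Qb) (v : ι → Qb) : MvPolynomial.eval (a • v) F = a ^ d * MvPolynomial.eval v F := by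
  classical
  cases nonempty_fintype ι
  obtain ⟨A, hA⟩ := exists_linear d F hF
  rw [hA, hA, Finset.mul_sum]
  refine Finset.sum_congr rfl fun I _ => ?_
  simp only [Pi.smul_apply, smul_eq_mul, Finset.prod_mul_distrib, Finset.prod_const,
    Finset.card_univ, Fintype.card_fin]
  ring

theorem eval_rep {ι : Type} [Finite ι] {F : MvPolynomial ι Qb} {d : ℕ} (hF : F.IsHomogeneous d)
    (v : ι → Qb) (hv : v ≠ 0) :
    MvPolynomial.eval (Projectivization.mk Qb v hv).rep F = 0 ↔ MvPolynomial.eval v F = 0 := by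
  obtain ⟨a, ha⟩ := Projectivization.exists_smul_eq_mk_rep Qb v hv
  rw [← ha, Units.smul_def, eval_smul hF]
  constructor
  · intro h
    rcases mul_eq_zero.1 h with h | h
    · exact absurd h (pow_ne_zero _ a.ne_zero)
    · exact h
  · intro h
    rw [h, mul_zero]

theorem height_mk {ι : Type} [Finite ι] (v : ι → Qb) (hv : v ≠ 0) :
    height (Projectivization.mk Qb v hv) = absLogHeight v := by
  obtain ⟨a, ha⟩ := Projectivization.exists_smul_eq_mk_rep Qb v hv
  unfold height
  rw [← ha, Units.smul_def]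
  exact absLogHeight_smul v a.ne_zero

theorem height_nonneg {ι : Type} [Finite ι] (p : P ι) : 0 ≤ height p := absLogHeight_nonneg _

/-- finitely many local representations of a morphism suffice -/
theorem finite_reps {ι κ : Type} [Finite ι] (X : Set (P ι)) (f : X → P κ) (hf : IsMorphism X f) :
    ∃ (R : Type) (_ : Finite R) (g : R → MvPolynomial ι Qb) (D E : R → ℕ)
      (F : R → κ → MvPolynomial ι Qb), (∀ r, (g r).IsHomogeneous (E r)) ∧
      (∀ r j, (F r j).IsHomogeneous (D r)) ∧
      (∀ x : X, ∃ r, MvPolynomial.eval (x : P ι).rep (g r) ≠ 0) ∧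
      ∀ (x : X) (r : R), MvPolynomial.eval (x : P ι).rep (g r) ≠ 0 →
        ∃ h : (fun j => MvPolynomial.eval (x : P ι).rep (F r j)) ≠ 0,
          f x = Projectivization.mk Qb _ h := by
  classical
  have h1 : ∀ x : X, ∃ (g : MvPolynomial ι Qb) (e d : ℕ) (F : κ → MvPolynomial ι Qb),
      g.IsHomogeneous e ∧ (∀ j, (F j).IsHomogeneous d) ∧
      MvPolynomial.eval (x : P ι).rep g ≠ 0 ∧
      ∀ x' : X, MvPolynomial.eval (x' : P ι).rep g ≠ 0 →
        ∃ h : (fun j => MvPolynomial.eval (x' : P ι).rep (F j)) ≠ 0,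
          f x' = Projectivization.mk Qb _ h := by
    intro x
    obtain ⟨W, d, F, ⟨S, hS, hW⟩, hxW, hF, hx⟩ := hf x
    rw [hW] at hxW
    simp only [Set.mem_ofPred_eq] at hxW
    push Not at hxW
    obtain ⟨g, hgS, hg⟩ := hxW
    obtain ⟨e, he⟩ := hS g hgS
    refine ⟨g, e, d, F, he, hF, hg, fun x' hx' => hx x' ?_⟩
    rw [hW]
    intro hcon
    exact hx' (hcon g hgS)
  choose g e d F hg hF hgx hx using h1
  obtain ⟨T, hT, hTv⟩ := pick (Set.range g)
  have h2 : ∀ t : T, ∃ x : X, g x = t := fun t => hT t.2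
  choose c hc using h2
  refine ⟨T, inferInstance, fun t => g (c t), fun t => d (c t), fun t => e (c t),
    fun t => F (c t), fun t => hg _, fun t => hF _, fun x => ?_, fun x t hxt => hx (c t) x hxt⟩
  by_contra hcon
  push Not at hcon
  apply hgx x
  apply hTv
  · intro G hG
    have := hcon ⟨G, hG⟩
    rwa [hc] at this
  · exact ⟨x, rfl⟩

/-- the height of the image is bounded -/
theorem upper {ι κ : Type} [Finite ι] [Finite κ] (X : Set (P ι)) (f : X → P κ)
    (hf : IsMorphism X f) : ∃ C : ℝ, 0 < C ∧ ∀ x : X, height (f x) ≤ C * height (x : P ι) + C := by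
  classical
  cases nonempty_fintype ι
  obtain ⟨R, hR, g, D, E, F, hg, hF, hcov, hrep⟩ := finite_reps X f hf
  have h1 : ∀ r, ∃ C : ℝ, ∀ x : ι → Qb, absLogHeight (fun j => MvPolynomial.eval x (F r j)) ≤
      C + D r * absLogHeight x := fun r => absLogHeight_eval (D r) (F r) (hF r)
  choose C hC using h1
  cases nonempty_fintype R
  refine ⟨∑ r, (|C r| + D r) + 1, by positivity, fun x => ?_⟩
  obtain ⟨r, hr⟩ := hcov x
  obtain ⟨h, hx⟩ := hrep x r hr
  rw [hx, height_mk]
  have h2 := hC r (x : P ι).rep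
  have h3 := height_nonneg (x : P ι)
  have h4 : |C r| + D r ≤ ∑ r, (|C r| + D r) :=
    Finset.single_le_sum (f := fun r => |C r| + (D r : ℝ)) (fun r _ => by positivity)
      (Finset.mem_univ r)
  have h5 : C r ≤ |C r| := le_abs_self _
  have h6 : (D r : ℝ) * height (x : P ι) ≤ (∑ r, (|C r| + D r) + 1) * height (x : P ι) := by
    apply mul_le_mul_of_nonneg_right _ h3
    have := abs_nonneg (C r)
    linarith
  have h7 : (0 : ℝ) ≤ D r := Nat.cast_nonneg _
  unfold height at h6 ⊢
  linarith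

end Pool.Agent.W70.MH
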