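import Mathlib

/-!
Uniform algebraic solutions of polynomial systems with parameters, by an ultraproduct.
-/

set_option autoImplicit false

namespace Pool.Agent.W70.MH

open Filter

variable {k : Type} [Field k]

/-- the ultrapower -/
abbrev Ult (k : Type) : Type := ((hyperfilter ℕ : Ultrafilter ℕ) : Filter ℕ).Germ k

/-- the class of a sequence -/
noncomputable def toU : (ℕ → k) →+* Ult k := Germ.coeRingHom _

theorem toU_surj (x : Ult k) : ∃ f : ℕ → k, toU f = x := by
  induction x using Germ.inductionOn with
  | h f => exact ⟨f, rfl⟩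

theorem toU_eq_zero (f : ℕ → k) : toU f = 0 ↔ ∀ᶠ N in ((hyperfilter ℕ : Ultrafilter ℕ) : Filter ℕ), f N = 0 := by
  change ((f : Ult k) = ((0 : ℕ → k) : Ult k)) ↔ _
  rw [Germ.coe_eq]
  rfl

/-- constants -/
noncomputable def cU : k →+* Ult k := toU.comp (Pi.constRingHom ℕ k)

open Polynomial in
instance isAlgClosed_ult [IsAlgClosed k] : IsAlgClosed (Ult k) := by
  apply IsAlgClosed.of_exists_root
  intro p hp hirr
  have hdeg : 0 < p.natDegree := hirr.natDegree_pos
  choose c hc using fun i => toU_surj (p.coeff i)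
  set n := p.natDegree with hn
  have hroot : ∀ N : ℕ, ∃ r : k, r ^ n + ∑ i ∈ Finset.range n, c i N * r ^ i = 0 := by
    intro N
    set q : k[X] := X ^ n + ∑ i ∈ Finset.range n, C (c i N) * X ^ i with hq
    have hlt : (∑ i ∈ Finset.range n, C (c i N) * X ^ i).degree < (X ^ n : k[X]).degree := by
      rw [degree_X_pow]
      refine lt_of_le_of_lt (degree_sum_le _ _) ?_
      rw [Finset.sup_lt_iff (by exact WithBot.bot_lt_coe n)]
      intro i hi
      refine lt_of_le_of_lt (degree_C_mul_X_pow_le i _) ?_
      exact_mod_cast Finset.mem_range.1 hi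
    have hqd : q.degree ≠ 0 := by
      rw [hq, degree_add_eq_left_of_degree_lt hlt, degree_X_pow]
      exact_mod_cast hdeg.ne'
    obtain ⟨r, hr⟩ := IsAlgClosed.exists_root q hqd
    refine ⟨r, ?_⟩
    have h1 : q.eval r = 0 := hr
    rw [hq, eval_add, eval_pow, eval_X, eval_finsetSum] at h1
    simpa using h1
  choose r hr using hroot
  refine ⟨toU r, ?_⟩
  rw [hp.as_sum, eval_add, eval_pow, eval_X, eval_finsetSum]
  have h2 : toU r ^ n + ∑ i ∈ Finset.range n, eval (toU r) (C (p.coeff i) * X ^ i) =
      toU (fun N => r N ^ n + ∑ i ∈ Finset.range n, c i N * r N ^ i) := by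
    have h3 : (fun N => r N ^ n + ∑ i ∈ Finset.range n, c i N * r N ^ i) =
        r ^ n + ∑ i ∈ Finset.range n, c i * r ^ i := by
      funext N
      simp
    rw [h3, map_add, map_pow, map_sum]
    congr 1
    refine Finset.sum_congr rfl fun i _ => ?_
    rw [eval_mul, eval_C, eval_pow, eval_X, ← hc i, map_mul, map_pow]
  rw [h2]
  have h4 : (fun N => r N ^ n + ∑ i ∈ Finset.range n, c i N * r N ^ i) = 0 := funext hr
  rw [h4, map_zero]

theorem eval_toU {ι : Type} (z : ι → ℕ → k) (p : MvPolynomial ι k) :
    MvPolynomial.eval₂ cU (fun i => toU (z i)) p =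
      toU (fun N => MvPolynomial.eval (fun i => z i N) p) := by
  have h : MvPolynomial.eval₂Hom (cU (k := k)) (fun i => toU (z i)) =
      (toU (k := k)).comp (RingHom.pi (fun N => MvPolynomial.eval (fun i => z i N))) := by
    apply MvPolynomial.ringHom_ext
    · intro c
      rw [MvPolynomial.eval₂Hom_C, RingHom.comp_apply]
      unfold cU
      rw [RingHom.comp_apply]
      congr 1
      funext N
      change c = MvPolynomial.eval (fun i => z i N) (MvPolynomial.C c)
      rw [MvPolynomial.eval_C]
    · intro i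
      rw [MvPolynomial.eval₂Hom_X', RingHom.comp_apply]
      congr 1
      funext N
      change z i N = MvPolynomial.eval (fun i => z i N) (MvPolynomial.X i)
      rw [MvPolynomial.eval_X]
  exact congrArg (fun f : MvPolynomial ι k →+* Ult k => f p) h

end Pool.Agent.W70.MH
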